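import Pool.Agent.X238.Mcs.Main

set_option autoImplicit false

/-!
# MP_eab232_al, Q2: `p`-conjugacy for finite monadic confluent rewriting systems

There is a finite monadic confluent rewriting system for which the `p`-conjugacy problem of its
monoid is undecidable. So the answer to Q2 is no.

Definitions (file `Pool/Agent/X238/Mcs/Rw.lean`), for a system `R : Set (List S × List S)`:
* `Step R u v`: `u = a x b`, `v = a y b` for a rule `(x, y) ∈ R`;
* `Monadic R`: each rule `(x, y)` has `|y| ≤ 1` and `|x| > |y|`;
* `Confluent R`: words with a common ancestor for `→*` have a common descendant;
* `Mon R`: the quotient of the free monoid by the smallest congruence that contains `R`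
  (Mathlib's `PresentedMonoid`), and `cls R w` the class of the word `w`;
* `PConj R a b`: `[a] = x y` and `[b] = y x` for some elements `x`, `y` of the monoid.
-/

namespace Pool.Agent.Results.MP_eab232_al.PConjugacyUndecidable

open Pool.Agent.X238.Mcs

/-- There are an alphabet `Fin n` and a finite monadic confluent system `R` over it such that no
algorithm decides, given two words `u`, `v`, whether `[u]` and `[v]` are `p`-conjugate in the monoid
of `R`. -/
theorem result : ∃ (n : ℕ) (R : Set (List (Fin n) × List (Fin n))),
    R.Finite ∧ Monadic R ∧ Confluent R ∧
    ¬ ComputablePred fun p : List (Fin n) × List (Fin n) => PConj R p.1 p.2 :=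
  main

end Pool.Agent.Results.MP_eab232_al.PConjugacyUndecidable
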